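import Pool.Agent.Helper83.E3.Codes
import Pool.Agent.Helper29.E3.Sizes

/-!
# The codes of phase 3
-/

variable [Pool.Agent.Helper29.E3.EpFn]

namespace Pool.Agent.Helper83.E3

open Finset Pool.Agent.ETS Pool.Agent.ETS.RC Pool.Agent.Helper83.ET Pool.Agent.Helper5.ETP
open Pool.Agent.Helper41.ETPP
open Pool.Agent.Helper29.ETK (CC lg kk)
open Pool.Agent.Helper29.E3 (ep Wd hh ll th one_le_th)
open Pool.Agent.E3 (comp Codes2 pidx)

variable {C : ℕ} {T Th TK : ℕ → Finset ℕ}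

theorem CC_ge2 {c : ℕ} (hc : 20 ≤ c) : 2 ^ 20 ≤ CC c := Nat.pow_le_pow_right (by norm_num) hc

theorem CC_even2 {c : ℕ} (hc : 20 ≤ c) : 2 ∣ CC c := dvd_pow_self 2 (by omega)

/-- The grid of the positions and the boundaries of the code of anchor 0. -/
theorem gap_zero2 {C e L : ℕ} (hC : 2 ≤ C) (he : 5 ≤ e) (c : Code)
    (hc : c.β = lvlBeta (C ^ (9 - 5)) (C ^ 5) C) (hL : C ^ e ∣ L) (h : C ^ (e + 8) ≤ L) (i : ℕ) :
    c.β i ≤ L ∨ L + C ^ e ≤ c.β i := by
  have hCpos : 0 < C := by omega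
  rcases Nat.lt_or_ge L (c.β i) with hLi | hLi
  swap
  · exact Or.inl hLi
  right
  rcases Nat.eq_zero_or_pos i with h0 | h0
  · rw [h0, hc, lvlBeta_zero] at hLi
    omega
  obtain ⟨n, rfl⟩ : ∃ n, i = n + 1 := ⟨i - 1, by omega⟩
  have hdvd : C ^ e ∣ c.β (n + 1) := by
    rw [hc]
    refine dvd_trans ?_ (dvd_lvlBeta_succ _ _ _ _)
    rw [← pow_add]
    apply pow_dvd_pow
    have h1 := lvlBeta_succ_lt (w0 := C ^ (9 - 5)) (r := C ^ 5) (C := C)
      (Nat.one_le_pow _ _ hCpos) (Nat.one_le_pow _ _ hCpos) hC n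
    rw [← hc, ← pow_add, ← pow_add] at h1
    have h2 : C ^ (e + 8) < C ^ (9 - 5 + 5 + (n / ((C - 1) * C ^ 5) + 1)) :=
      lt_of_le_of_lt h (lt_trans hLi h1)
    have h3 := (Nat.pow_lt_pow_iff_right (show 1 < C by omega)).mp h2
    generalize n / ((C - 1) * C ^ 5) = q at h3 ⊢
    omega
  obtain ⟨a, ha⟩ := hdvd
  obtain ⟨b, hb⟩ := hL
  rw [ha, hb] at hLi ⊢
  have h2 : b < a := by
    by_contra hcon
    push Not at hcon
    have := Nat.mul_le_mul_left (C ^ e) hcon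
    omega
  calc C ^ e * b + C ^ e = C ^ e * (b + 1) := by ring
    _ ≤ C ^ e * a := Nat.mul_le_mul_left _ h2

/-- The conditions of the `PT` regions that occur. -/
theorem mkT_PTok' {c g b B : ℕ} (hc : 20 ≤ c) (he : 20 ≤ ep c b) (hWb : Wd c b ∣ b)
    (hWg : Wd c b ∣ g) (h : g = 0 ∨ ep c g = ep c b)
    (hg : NearT (CC c) (ep c b) B (T (ep c b)) (Th (ep c b))) :
    PTok (mkT (CC c) T Th TK) (pcode (CC c) (pidx c g)) B (ep c b) (b - g) := by
  have hL : (CC c) ^ (ep c b) ∣ b - g := Nat.dvd_sub hWb hWg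
  by_cases hg0 : g = 0
  · subst hg0
    have hp : pidx c 0 = 0 := by
      unfold pidx
      simp
    rw [hp]
    have hb : b ≠ 0 := by
      intro hb
      rw [hb] at he
      unfold ep lg at he
      rw [Nat.log_zero_right, Pool.Agent.Helper29.E3.epf_zero] at he
      omega
    have hge : CC c ^ (ep c b + 8) ≤ b := by
      calc CC c ^ (ep c b + 8) ≤ CC c ^ (lg c b) := by
            apply Nat.pow_le_pow_right
            · unfold CC
              positivity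
            · have h1 := Pool.Agent.Helper29.E3.ep_le_lg c b
              exact Pool.Agent.Helper29.E3.ep_add_eight (by omega)
        _ ≤ b := Nat.pow_log_le_self _ hb
    apply mkT_PTok_zero (CC_ge2 hc) (CC_even2 hc) he hg hL (by omega)
    intro i
    have hC256 : 256 ≤ CC c := le_trans (by norm_num) (CC_ge2 hc)
    apply gap_zero2 (by omega) (by omega) _ (pcode_beta hC256 0) hL
    rw [Nat.sub_zero]
    exact hge
  · have hp : pidx c g = ep c b + 1 := by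
      unfold pidx
      rw [if_neg hg0]
      rcases h with h | h
      · exact absurd h hg0
      · rw [h]
    rw [hp]
    exact mkT_PTok (CC_ge2 hc) (CC_even2 hc) he hg hL

/-! ### the local sets -/

/-- number of the small cells in a mid block -/
def n1 (c : ℕ) : ℕ := 2 ^ 9 * CC c ^ 8

theorem kk_le {e : ℕ} (he : 9 ≤ e) : kk e ≤ e := by
  unfold kk
  apply Nat.clog_le_of_le_pow
  induction e, he using Nat.le_induction with
  | base => norm_num
  | succ e he ih =>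
    rw [pow_succ]
    omega

/-- `hh c e = ll c e * n1 c` -/
theorem hh_eq {c e : ℕ} (hc : 20 ≤ c) (he : 20 ≤ e) : hh c e = ll c e * n1 c := by
  have hk := kk_le (show 9 ≤ e by omega)
  unfold hh ll n1 CC
  rw [← pow_mul, ← pow_add, ← pow_add]
  congr 1
  have h1 : c * (e - 3) = c * (e - 20) + 17 * c := by
    have : e - 3 = e - 20 + 17 := by omega
    rw [this, mul_add]
    ring
  have h2 : c * (e + 4) = c * (e - 20) + 24 * c := by
    have : e + 4 = e - 20 + 24 := by omega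
    rw [this, mul_add]
    ring
  have h3 : 20 * (e - 20) ≤ c * (e - 20) := Nat.mul_le_mul_right _ hc
  omega

theorem ll_even {c e : ℕ} (hc : 20 ≤ c) (he : 40 ≤ e) : 2 ∣ ll c e := by
  have hk := kk_le (show 9 ≤ e by omega)
  unfold ll
  apply dvd_pow_self 2
  have h1 : c * (e - 3) = c * (e - 20) + 17 * c := by
    have : e - 3 = e - 20 + 17 := by omega
    rw [this, mul_add]
    ring
  have h3 : 20 * (e - 20) ≤ c * (e - 20) := Nat.mul_le_mul_right _ hc
  omega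

theorem n1_le {c e : ℕ} (hc : 20 ≤ c) (he : 40 ≤ e) : 512 * n1 c ^ 2 ≤ ll c e := by
  have hk := kk_le (show 9 ≤ e by omega)
  have h1 : c * (e - 3) = c * (e - 20) + 17 * c := by
    have : e - 3 = e - 20 + 17 := by omega
    rw [this, mul_add]
    ring
  have h3 : 20 * (e - 20) ≤ c * (e - 20) := Nat.mul_le_mul_right _ hc
  unfold n1 ll CC
  calc 512 * (2 ^ 9 * (2 ^ c) ^ 8) ^ 2 = 2 ^ (27 + 16 * c) := by
        rw [mul_pow, ← pow_mul, ← pow_mul, ← pow_mul, pow_add]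
        rw [show c * (8 * 2) = 16 * c by ring]
        norm_num
        ring
    _ ≤ _ := Nat.pow_le_pow_right (by norm_num) (by omega)

/-- what is needed here of the sets of the contents of the small cells -/
structure SdOK (Sd : ℕ → Finset ℕ) : Prop where
  lt : ∀ l, 2 ∣ l → 8 ≤ l → ∀ s ∈ Sd l, s < 2 ^ l
  card : ∀ l, 2 ∣ l → 8 ≤ l → (Sd l).card ≤ 2 ^ (l / 2)
  mult : ∀ l, 2 ∣ l → 8 ≤ l → Mult l 8 (Sd l) (Sd l)

theorem ll_ge {c e : ℕ} (hc : 20 ≤ c) (he : 40 ≤ e) : 512 ≤ ll c e := by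
  have h := n1_le hc he
  have h1 : 1 ≤ n1 c := by
    unfold n1 CC
    exact Nat.one_le_iff_ne_zero.mpr (by positivity)
  have h2 : 1 ≤ n1 c ^ 2 := Nat.one_le_pow _ _ h1
  omega

theorem th_small_ll {c e : ℕ} (hc : 20 ≤ c) (he : 40 ≤ e) : 40 + 2 * th c e ≤ ll c e := by
  have h1 := Pool.Agent.Helper29.E3.th_le_ll (c := c) (by omega) (show 20 ≤ e by omega)
  have h2 := one_le_th c e
  have h3 : th c e ≤ CC c * th c e := Nat.le_mul_of_pos_left _ (by unfold CC; positivity)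
  omega

theorem th_small_W {c e : ℕ} (hc : 20 ≤ c) (he : 40 ≤ e) : 40 + 2 * th c e ≤ CC c ^ e := by
  have h1 := Pool.Agent.Helper29.E3.th_le_pow c e
  have h2 := one_le_th c e
  have hC := CC_ge2 hc
  have h3 : 40 * CC c ^ (e / 2) + 2 * CC c ^ (e / 2) ≤ CC c ^ (e / 2) * CC c := by
    have : 42 * CC c ^ (e / 2) ≤ CC c * CC c ^ (e / 2) :=
      Nat.mul_le_mul_right _ (le_trans (by norm_num) hC)
    calc 40 * CC c ^ (e / 2) + 2 * CC c ^ (e / 2) = 42 * CC c ^ (e / 2) := by ring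
      _ ≤ CC c * CC c ^ (e / 2) := this
      _ = _ := by ring
  have h4 : CC c ^ (e / 2) * CC c ≤ CC c ^ e := by
    rw [← pow_succ]
    exact Nat.pow_le_pow_right (by omega) (by omega)
  omega

/-- contents of the composite mid blocks -/
noncomputable def C1s (c : ℕ) (Sd : ℕ → Finset ℕ) (e : ℕ) : Finset ℕ :=
  comp (Sd (ll c e)) (ll c e) (hh c e / ll c e)

open Classical in
/-- the local sets of the mid blocks -/
noncomputable def loc1 (c : ℕ) (Sd : ℕ → Finset ℕ) (e : ℕ) : Finset ℕ × Finset ℕ :=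
  if h : ∃ T Th, Loc1 (ll c e) (n1 c) (th c e) (C1s c Sd e) T Th then
    (h.choose, h.choose_spec.choose) else ({0}, {0})

/-- contents of the composite units -/
noncomputable def C2s (c : ℕ) (Sd : ℕ → Finset ℕ) (e : ℕ) : Finset ℕ :=
  comp (loc1 c Sd e).2 (hh c e) (CC c ^ e / hh c e)

open Classical in
/-- the local sets of the units -/
noncomputable def loc2 (c : ℕ) (Sd : ℕ → Finset ℕ) (e : ℕ) : Finset ℕ × Finset ℕ :=
  if h : ∃ T Th, Loc2 (CC c) e (th c e) (C2s c Sd e) T Th then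
    (h.choose, h.choose_spec.choose) else ({0}, {0})

theorem loc1_ok {c e : ℕ} {Sd : ℕ → Finset ℕ} (hc : 20 ≤ c) (he : 40 ≤ e) (hS : SdOK Sd) :
    Loc1 (ll c e) (n1 c) (th c e) (C1s c Sd e) (loc1 c Sd e).1 (loc1 c Sd e).2 := by
  have h2 := ll_even hc he
  have h8 : 8 ≤ ll c e := le_trans (by norm_num) (ll_ge hc he)
  have hl : 0 < ll c e := by
    unfold ll
    positivity
  have hn : 1 ≤ n1 c := by
    unfold n1 CC
    exact Nat.one_le_iff_ne_zero.mpr (by positivity)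
  have hdiv : hh c e / ll c e = n1 c := by
    rw [hh_eq hc (by omega)]
    exact Nat.mul_div_cancel_left _ hl
  have hex : ∃ T Th, Loc1 (ll c e) (n1 c) (th c e) (C1s c Sd e) T Th := by
    apply exists_local1 h2 hn (n1_le hc he) (one_le_th c e) (th_small_ll hc he)
    · unfold C1s
      rw [comp_eq_cat, hdiv]
      exact cat_lt (hS.lt _ h2 h8) _
    · unfold C1s
      rw [comp_eq_cat, hdiv, card_cat (hS.lt _ h2 h8)]
      refine (Nat.pow_le_pow_left (hS.card _ h2 h8) _).trans ?_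
      rw [← pow_mul]
      apply Nat.pow_le_pow_right (by norm_num)
      obtain ⟨w, hw⟩ := h2
      rw [hw, show 2 * w / 2 = w by omega, show 2 * w * n1 c / 2 = w * n1 c by
        rw [mul_assoc]
        exact Nat.mul_div_cancel_left _ (by norm_num)]
  unfold loc1
  rw [dif_pos hex]
  exact hex.choose_spec.choose_spec

theorem loc2_ok {c e : ℕ} {Sd : ℕ → Finset ℕ} (hc : 20 ≤ c) (he : 40 ≤ e) (hS : SdOK Sd) :
    Loc2 (CC c) e (th c e) (C2s c Sd e) (loc2 c Sd e).1 (loc2 c Sd e).2 := by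
  have h1 := loc1_ok hc he hS
  have hH := hh_eq hc (show 20 ≤ e by omega)
  have hlt : ∀ t ∈ (loc1 c Sd e).2, t < 2 ^ hh c e := by
    rw [hH]
    exact h1.Th_lt
  have hcd : (loc1 c Sd e).2.card ≤ 2 ^ (hh c e / 2) := by
    rw [hH]
    exact h1.Th_card
  have hle : hh c e * (CC c ^ e / hh c e) ≤ CC c ^ e := Nat.mul_div_le _ _
  have hH2 : 2 ∣ hh c e := by
    rw [hH]
    exact Dvd.dvd.mul_right (ll_even hc he) _
  have hex : ∃ T Th, Loc2 (CC c) e (th c e) (C2s c Sd e) T Th := by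
    apply exists_local2 (CC_ge2 hc) (CC_even2 hc) (by omega) (one_le_th c e)
      (th_small_W hc he)
    · intro x hx
      unfold C2s at hx
      rw [comp_eq_cat] at hx
      exact lt_of_lt_of_le (cat_lt hlt _ x hx) (Nat.pow_le_pow_right (by norm_num) hle)
    · unfold C2s
      rw [comp_eq_cat, card_cat hlt]
      refine (Nat.pow_le_pow_left hcd _).trans ?_
      rw [← pow_mul]
      apply Nat.pow_le_pow_right (by norm_num)
      obtain ⟨w, hw⟩ := hH2
      rw [hw] at hle ⊢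
      rw [show 2 * w / 2 = w by omega]
      rw [Nat.le_div_iff_mul_le (by norm_num)]
      calc w * (CC c ^ e / (2 * w)) * 2 = 2 * w * (CC c ^ e / (2 * w)) := by ring
        _ ≤ _ := hle
  unfold loc2
  rw [dif_pos hex]
  exact hex.choose_spec.choose_spec

/-- The properties of the local sets of the mid blocks in terms of the length `H` only. -/
structure LocH (H E th : ℕ) (C T Th : Finset ℕ) : Prop where
  Th_lt : ∀ t ∈ Th, t < 2 ^ H
  T_lt : ∀ t ∈ T, t < 2 ^ H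
  C_lt : ∀ t ∈ C, t < 2 ^ H
  Th_card : Th.card ≤ 2 ^ (H / 2)
  C_card : C.card ≤ 2 ^ (H / 2)
  T_card : T.card = 2 ^ (H / 2 - 10 - th)
  Th_low : ∀ k r, (Th.filter (fun t => t % 2 ^ k = r)).card ≤ 2 ^ (H / 2 - k)
  T_low : ∀ k r, (T.filter (fun t => t % 2 ^ k = r)).card ≤ B1 H * 2 ^ (H / 2 - k)
  ThTh : Mult H 2 Th Th
  ThC : Mult H (2 ^ E) Th C
  T_fam : ∀ q ∈ FamB H Th C, (T ∩ q).card ≤ B1 H
  TT : Mult H (B1 H) T T
  TTh : Mult H (B1 H) T Th
  TC : Mult H (B1 H) T C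
  T_famt : ∀ q ∈ FamB H Th C, (T ∩ q).card ≤ Bt H th
  TTt : Mult H (Bt H th) T T

/-- the lists of `T1`, with the translates of `-T1` -/
theorem LocH.T_fam' {H E th : ℕ} {C T Th : Finset ℕ} (h : LocH H E th C T Th) {q : Finset ℕ}
    (hq : q ∈ FamB H Th C ∪ (Finset.range (2 ^ H)).image (neg H T)) :
    (T ∩ q).card ≤ B1 H := by
  rcases Finset.mem_union.mp hq with h1 | h1
  · exact h.T_fam q h1
  · obtain ⟨ν, -, rfl⟩ := Finset.mem_image.mp h1
    exact Mult.inter_neg h.TT ν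

/-- the thinned bound -/
theorem LocH.T_famt' {H E th : ℕ} {C T Th : Finset ℕ} (h : LocH H E th C T Th) {q : Finset ℕ}
    (hq : q ∈ FamB H Th C ∪ (Finset.range (2 ^ H)).image (neg H T)) :
    (T ∩ q).card ≤ Bt H th := by
  rcases Finset.mem_union.mp hq with h1 | h1
  · exact h.T_famt q h1
  · obtain ⟨ν, -, rfl⟩ := Finset.mem_image.mp h1
    exact Mult.inter_neg h.TTt ν

theorem Loc1.toH {l n H th : ℕ} {C T Th : Finset ℕ} (h : Loc1 l n th C T Th) (hH : H = l * n)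
    (h0 : 0 < H) : LocH H l th C T Th := by
  subst hH
  exact
    { Th_lt := h.Th_lt
      T_lt := h.T_lt
      C_lt := h.C_lt
      Th_card := h.Th_card
      C_card := h.C_card
      T_card := h.T_card
      Th_low := h.Th_low
      T_low := h.T_low (by unfold B1; omega)
      ThTh := h.ThTh
      ThC := h.ThC
      T_fam := h.T_fam
      TT := h.TT
      TTh := h.TTh
      TC := h.TC
      T_famt := h.T_famt
      TTt := h.TTt }

theorem hh_pos (c e : ℕ) : 0 < hh c e := by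
  unfold hh
  positivity

theorem loc1_okH {c e : ℕ} {Sd : ℕ → Finset ℕ} (hc : 20 ≤ c) (he : 40 ≤ e) (hS : SdOK Sd) :
    LocH (hh c e) (ll c e) (th c e) (C1s c Sd e) (loc1 c Sd e).1 (loc1 c Sd e).2 :=
  (loc1_ok hc he hS).toH (hh_eq hc (by omega)) (hh_pos c e)

/-- **The codes of phase 3.** -/
noncomputable def mk2 (c : ℕ) (Sd TK : ℕ → Finset ℕ) : Codes2 where
  toCodes := mkT (CC c) (fun e => (loc2 c Sd e).1) (fun e => (loc2 c Sd e).2) TK
  H := hh c
  L := ll c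
  Sd := Sd
  Th1 := fun e => (loc1 c Sd e).2
  T1 := fun e => (loc1 c Sd e).1

theorem exists_Fam2 (c : ℕ) (Sd : ℕ → Finset ℕ) (e : ℕ) : ∃ F : Finset (Finset ℕ),
    F = FamT (CC c) e (C2s c Sd e) (loc2 c Sd e).1 (loc2 c Sd e).2 := ⟨_, rfl⟩

/-- the family of the sets of the one sided lists of a unit, epoch `e` -/
noncomputable def Fam2 (c : ℕ) (Sd : ℕ → Finset ℕ) (e : ℕ) : Finset (Finset ℕ) :=
  (exists_Fam2 c Sd e).choose

theorem Fam2_eq (c : ℕ) (Sd : ℕ → Finset ℕ) (e : ℕ) :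
    Fam2 c Sd e = FamT (CC c) e (C2s c Sd e) (loc2 c Sd e).1 (loc2 c Sd e).2 :=
  (exists_Fam2 c Sd e).choose_spec

theorem exists_Fam1 (c : ℕ) (Sd : ℕ → Finset ℕ) (e : ℕ) : ∃ F : Finset (Finset ℕ),
    F = FamB (hh c e) (loc1 c Sd e).2 (C1s c Sd e) ∪
      (Finset.range (2 ^ hh c e)).image (neg (hh c e) (loc1 c Sd e).1) := ⟨_, rfl⟩

/-- the family of the sets of the one sided lists of a mid block, epoch `e` -/
noncomputable def Fam1 (c : ℕ) (Sd : ℕ → Finset ℕ) (e : ℕ) : Finset (Finset ℕ) :=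
  (exists_Fam1 c Sd e).choose

theorem Fam1_eq (c : ℕ) (Sd : ℕ → Finset ℕ) (e : ℕ) :
    Fam1 c Sd e = FamB (hh c e) (loc1 c Sd e).2 (C1s c Sd e) ∪
      (Finset.range (2 ^ hh c e)).image (neg (hh c e) (loc1 c Sd e).1) :=
  (exists_Fam1 c Sd e).choose_spec

section

variable {c : ℕ} {Sd : ℕ → Finset ℕ}

@[simp] theorem mk2_toCodes : (mk2 c Sd TK).toCodes =
    mkT (CC c) (fun e => (loc2 c Sd e).1) (fun e => (loc2 c Sd e).2) TK := rfl
@[simp] theorem mk2_W (e : ℕ) : (mk2 c Sd TK).W e = CC c ^ e := rfl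
@[simp] theorem mk2_H (e : ℕ) : (mk2 c Sd TK).H e = hh c e := rfl
@[simp] theorem mk2_L (e : ℕ) : (mk2 c Sd TK).L e = ll c e := rfl
@[simp] theorem mk2_Sd : (mk2 c Sd TK).Sd = Sd := rfl
@[simp] theorem mk2_TK : (mk2 c Sd TK).TK = TK := rfl

/-- the contents of the composite mid blocks in helper16's form -/
theorem mk2_C1 (e : ℕ) : comp ((mk2 c Sd TK).Sd ((mk2 c Sd TK).L e)) ((mk2 c Sd TK).L e)
    ((mk2 c Sd TK).H e / (mk2 c Sd TK).L e) = C1s c Sd e := rfl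

/-- the contents of the composite units in helper16's form -/
theorem mk2_C2 (e : ℕ) : comp ((mk2 c Sd TK).Th1 e) ((mk2 c Sd TK).H e)
    ((mk2 c Sd TK).W e / (mk2 c Sd TK).H e) = C2s c Sd e := rfl

theorem mk2_loc1 (hc : 20 ≤ c) (hS : SdOK Sd) {e : ℕ} (he : 40 ≤ e) :
    Loc1 (ll c e) (n1 c) (th c e) (C1s c Sd e) ((mk2 c Sd TK).T1 e) ((mk2 c Sd TK).Th1 e) :=
  loc1_ok hc he hS

theorem mk2_locH (hc : 20 ≤ c) (hS : SdOK Sd) {e : ℕ} (he : 40 ≤ e) :
    LocH (hh c e) (ll c e) (th c e) (C1s c Sd e) ((mk2 c Sd TK).T1 e) ((mk2 c Sd TK).Th1 e) :=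
  loc1_okH hc he hS

theorem mk2_loc2 (hc : 20 ≤ c) (hS : SdOK Sd) {e : ℕ} (he : 40 ≤ e) :
    Loc2 (CC c) e (th c e) (C2s c Sd e) ((mk2 c Sd TK).T e) ((mk2 c Sd TK).Th e) :=
  loc2_ok hc he hS

theorem card_Fam2 (hc : 20 ≤ c) {e : ℕ} (he : 40 ≤ e) :
    (Fam2 c Sd e).card ≤ 2 ^ (152 * CC c ^ (e + 1)) := by
  have := CC_ge2 hc
  rw [Fam2_eq]
  exact card_FamT (le_trans (by norm_num) this) (by omega) _ _ _

theorem card_Fam1 (e : ℕ) : (Fam1 c Sd e).card ≤ 2 ^ (2 * hh c e + 3) := by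
  rw [Fam1_eq]
  have h1 := card_FamB (L := hh c e) (loc1 c Sd e).2 (C1s c Sd e)
  have h2 : ((Finset.range (2 ^ hh c e)).image (neg (hh c e) (loc1 c Sd e).1)).card ≤
      2 ^ hh c e := by
    refine Finset.card_image_le.trans ?_
    rw [Finset.card_range]
  refine (Finset.card_union_le _ _).trans ?_
  have e1 : 2 ^ hh c e ≤ 2 ^ (2 * hh c e + 2) := Nat.pow_le_pow_right (by norm_num) (by omega)
  have e2 : 2 ^ (2 * hh c e + 3) = 2 * 2 ^ (2 * hh c e + 2) := by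
    rw [pow_succ 2 (2 * hh c e + 2)]
    ring
  omega

theorem T_Fam2 (hc : 20 ≤ c) (hS : SdOK Sd) {e : ℕ} (he : 40 ≤ e) {q : Finset ℕ}
    (hq : q ∈ Fam2 c Sd e) : ((mk2 c Sd TK).T e ∩ q).card ≤ BT (CC c) e :=
  (loc2_ok hc he hS).T_FamT (by rw [← Fam2_eq]; exact hq)

theorem T_Fam2t (hc : 20 ≤ c) (hS : SdOK Sd) {e : ℕ} (he : 40 ≤ e) {q : Finset ℕ}
    (hq : q ∈ Fam2 c Sd e) : ((mk2 c Sd TK).T e ∩ q).card ≤ Bt (CC c ^ (e + 1)) (th c e) :=
  (loc2_ok hc he hS).T_FamTt (by rw [← Fam2_eq]; exact hq)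

theorem T_Fam1t (hc : 20 ≤ c) (hS : SdOK Sd) {e : ℕ} (he : 40 ≤ e) {q : Finset ℕ}
    (hq : q ∈ Fam1 c Sd e) : ((mk2 c Sd TK).T1 e ∩ q).card ≤ Bt (hh c e) (th c e) :=
  (loc1_okH hc he hS).T_famt' (by rw [← Fam1_eq]; exact hq)

theorem T_Fam1 (hc : 20 ≤ c) (hS : SdOK Sd) {e : ℕ} (he : 40 ≤ e) {q : Finset ℕ}
    (hq : q ∈ Fam1 c Sd e) : ((mk2 c Sd TK).T1 e ∩ q).card ≤ B1 (hh c e) :=
  (loc1_okH hc he hS).T_fam' (by rw [← Fam1_eq]; exact hq)

end

end Pool.Agent.Helper83.E3
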