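import Pool.Agent.Helper86.ET.Q4

/-!
# E-T (MP_12a1af_nt), phase 3: concatenations of blocks

`cat l S n`: all numbers `∑ i < n, 2 ^ (l * i) * s i` with `s i ∈ S` (`S ⊆ [0, 2 ^ l)`).
-/

namespace Pool.Agent.Helper83.E3

open Finset Pool.Agent.ETS Pool.Agent.ETS.RC

/-- concatenations of `n` elements of `S`, blocks of length `l` -/
def cat (l : ℕ) (S : Finset ℕ) : ℕ → Finset ℕ
  | 0 => {0}
  | n + 1 => (cat l S n ×ˢ S).image (fun q => q.1 + 2 ^ (l * n) * q.2)

variable {l : ℕ} {S S' : Finset ℕ}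

@[simp] theorem cat_zero (l : ℕ) (S : Finset ℕ) : cat l S 0 = {0} := rfl

theorem mem_cat_succ {n z : ℕ} :
    z ∈ cat l S (n + 1) ↔ ∃ x ∈ cat l S n, ∃ s ∈ S, x + 2 ^ (l * n) * s = z := by
  show z ∈ (cat l S n ×ˢ S).image (fun q => q.1 + 2 ^ (l * n) * q.2) ↔ _
  rw [Finset.mem_image]
  constructor
  · rintro ⟨q, hq, rfl⟩
    rw [Finset.mem_product] at hq
    exact ⟨q.1, hq.1, q.2, hq.2, rfl⟩
  · rintro ⟨x, hx, s, hs, rfl⟩
    exact ⟨(x, s), Finset.mem_product.mpr ⟨hx, hs⟩, rfl⟩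

theorem cat_lt (hS : ∀ s ∈ S, s < 2 ^ l) : ∀ n, ∀ z ∈ cat l S n, z < 2 ^ (l * n) := by
  intro n
  induction n with
  | zero =>
    intro z hz
    rw [cat_zero, Finset.mem_singleton] at hz
    rw [hz]
    simp
  | succ n ih =>
    intro z hz
    obtain ⟨x, hx, s, hs, rfl⟩ := mem_cat_succ.mp hz
    have h1 := ih x hx
    have h2 := hS s hs
    have h3 : 2 ^ (l * (n + 1)) = 2 ^ (l * n) * 2 ^ l := by
      rw [← pow_add]
      congr 1
    rw [h3]
    calc x + 2 ^ (l * n) * s < 2 ^ (l * n) + 2 ^ (l * n) * s := by omega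
      _ = 2 ^ (l * n) * (s + 1) := by ring
      _ ≤ 2 ^ (l * n) * 2 ^ l := Nat.mul_le_mul_left _ h2

theorem card_cat (hS : ∀ s ∈ S, s < 2 ^ l) : ∀ n, (cat l S n).card = S.card ^ n := by
  intro n
  induction n with
  | zero => simp
  | succ n ih =>
    show ((cat l S n ×ˢ S).image (fun q => q.1 + 2 ^ (l * n) * q.2)).card = _
    rw [Finset.card_image_of_injOn, Finset.card_product, ih, pow_succ]
    intro p hp q hq h
    rw [Finset.mem_coe, Finset.mem_product] at hp hq
    have h1 := cat_lt hS n _ hp.1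
    have h2 := cat_lt hS n _ hq.1
    have h' : p.1 + 2 ^ (l * n) * p.2 = q.1 + 2 ^ (l * n) * q.2 := h
    have hpos : 0 < 2 ^ (l * n) := by positivity
    have e1 : p.2 = q.2 := by
      have := congrArg (· / 2 ^ (l * n)) h'
      simp only [Nat.add_mul_div_left _ _ hpos, Nat.div_eq_of_lt h1, Nat.div_eq_of_lt h2,
        zero_add] at this
      exact this
    have e2 : p.1 = q.1 := by
      rw [e1] at h'
      omega
    exact Prod.ext e2 e1

/-- the first blocks of a concatenation -/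
theorem cat_mod (hS : ∀ s ∈ S, s < 2 ^ l) {k n : ℕ} (h : k ≤ n) :
    ∀ z ∈ cat l S n, z % 2 ^ (l * k) ∈ cat l S k := by
  induction n, h using Nat.le_induction with
  | base =>
    intro z hz
    rw [Nat.mod_eq_of_lt (cat_lt hS k z hz)]
    exact hz
  | succ n hkn ih =>
    intro z hz
    obtain ⟨x, hx, s, hs, rfl⟩ := mem_cat_succ.mp hz
    have h1 : (x + 2 ^ (l * n) * s) % 2 ^ (l * k) = x % 2 ^ (l * k) := by
      have hd : 2 ^ (l * k) ∣ 2 ^ (l * n) * s :=
        Dvd.dvd.mul_right (pow_dvd_pow 2 (Nat.mul_le_mul_left l hkn)) s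
      obtain ⟨u, hu⟩ := hd
      rw [hu, Nat.add_mul_mod_self_left]
    rw [h1]
    exact ih x hx

/-- the blocks of a concatenation -/
theorem cat_block (hS : ∀ s ∈ S, s < 2 ^ l) {n : ℕ} :
    ∀ z ∈ cat l S n, ∀ i < n, z / 2 ^ (l * i) % 2 ^ l ∈ S := by
  intro z hz i hi
  have h1 := cat_mod hS (show i + 1 ≤ n by omega) z hz
  obtain ⟨x, hx, s, hs, he⟩ := mem_cat_succ.mp h1
  have hx' := cat_lt hS i x hx
  have hs' := hS s hs
  have h2 : z / 2 ^ (l * i) % 2 ^ l = (z % 2 ^ (l * (i + 1))) / 2 ^ (l * i) := by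
    have h3 : 2 ^ (l * (i + 1)) = 2 ^ (l * i) * 2 ^ l := by
      rw [← pow_add]
      congr 1
    rw [h3, Nat.mod_mul_right_div_self]
  rw [h2, ← he, Nat.add_mul_div_left _ _ (by positivity), Nat.div_eq_of_lt hx', zero_add]
  exact hs

/-- a set of the form `ν - S` modulo `2 ^ L` -/
def neg (L : ℕ) (S : Finset ℕ) (ν : ℕ) : Finset ℕ :=
  (Finset.range (2 ^ L)).filter (fun t => ∃ s ∈ S, (t + s) % 2 ^ L = ν)

theorem mem_neg {L ν t : ℕ} : t ∈ neg L S ν ↔ t < 2 ^ L ∧ ∃ s ∈ S, (t + s) % 2 ^ L = ν := by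
  unfold neg
  rw [Finset.mem_filter, Finset.mem_range]

theorem card_neg (L : ℕ) (S : Finset ℕ) (ν : ℕ) : (neg L S ν).card ≤ S.card := by
  have hch : ∀ t ∈ neg L S ν, ∃ s ∈ S, (t + s) % 2 ^ L = ν := fun t ht => (mem_neg.mp ht).2
  choose! g hg1 hg2 using hch
  apply Finset.card_le_card_of_injOn g
  · intro t ht
    exact hg1 t ht
  · intro t ht t' ht' h
    have e1 := hg2 t (Finset.mem_coe.mp ht)
    have e2 := hg2 t' (Finset.mem_coe.mp ht')
    rw [h] at e1
    have e3 : t + g t' ≡ t' + g t' [MOD 2 ^ L] := by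
      rw [Nat.ModEq, e1, e2]
    have e4 := Nat.ModEq.add_right_cancel' _ e3
    exact Nat.ModEq.eq_of_lt_of_lt e4 (mem_neg.mp (Finset.mem_coe.mp ht)).1
      (mem_neg.mp (Finset.mem_coe.mp ht')).1

/-- few elements in the sets `ν - S'` -/
theorem Mult.of_neg {L B : ℕ} (hS : ∀ s ∈ S, s < 2 ^ L) (hS' : ∀ s ∈ S', s < 2 ^ L)
    (h : ∀ ν < 2 ^ L, (S ∩ neg L S' ν).card ≤ B) : Mult L B S S' := by
  intro ν
  rcases Nat.lt_or_ge ν (2 ^ L) with hν | hν
  · refine le_trans ?_ (h ν hν)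
    apply Finset.card_le_card_of_injOn Prod.fst
    · intro q hq
      have a1 := Finset.mem_filter.mp (Finset.mem_coe.mp hq)
      have a2 := Finset.mem_product.mp a1.1
      rw [Finset.mem_coe, Finset.mem_inter]
      exact ⟨a2.1, mem_neg.mpr ⟨hS _ a2.1, q.2, a2.2, a1.2⟩⟩
    · intro q hq q' hq' h
      have a1 := Finset.mem_filter.mp (Finset.mem_coe.mp hq)
      have a2 := Finset.mem_product.mp a1.1
      have b1 := Finset.mem_filter.mp (Finset.mem_coe.mp hq')
      have b2 := Finset.mem_product.mp b1.1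
      have e3 : q.1 + q.2 ≡ q'.1 + q'.2 [MOD 2 ^ L] := by
        rw [Nat.ModEq, a1.2, b1.2]
      have h' : q.1 = q'.1 := h
      rw [h'] at e3
      have e4 := Nat.ModEq.add_left_cancel' _ e3
      exact Prod.ext h' (Nat.ModEq.eq_of_lt_of_lt e4 (hS' _ a2.2) (hS' _ b2.2))
  · have : (S ×ˢ S').filter (fun q => (q.1 + q.2) % 2 ^ L = ν) = ∅ := by
      rw [Finset.filter_eq_empty_iff]
      intro q _ h
      have := Nat.mod_lt (q.1 + q.2) (show 0 < 2 ^ L by positivity)
      omega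
    rw [this]
    simp

theorem Mult.inter_neg {L B : ℕ} (h : Mult L B S S') (ν : ℕ) : (S ∩ neg L S' ν).card ≤ B := by
  have hch : ∀ t ∈ S ∩ neg L S' ν, ∃ s ∈ S', (t + s) % 2 ^ L = ν := fun t ht =>
    (mem_neg.mp (Finset.mem_inter.mp ht).2).2
  choose! g hg1 hg2 using hch
  refine le_trans ?_ (h ν)
  apply Finset.card_le_card_of_injOn (fun t => (t, g t))
  · intro t ht
    rw [Finset.mem_coe, Finset.mem_filter, Finset.mem_product]
    exact ⟨⟨(Finset.mem_inter.mp (Finset.mem_coe.mp ht)).1, hg1 t (Finset.mem_coe.mp ht)⟩,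
      hg2 t (Finset.mem_coe.mp ht)⟩
  · intro t _ t' _ h
    exact congrArg Prod.fst h

theorem Mult.symm {L B : ℕ} (h : Mult L B S S') : Mult L B S' S := by
  intro ν
  refine le_trans ?_ (h ν)
  apply Finset.card_le_card_of_injOn Prod.swap
  · intro q hq
    have a1 := Finset.mem_filter.mp (Finset.mem_coe.mp hq)
    have a2 := Finset.mem_product.mp a1.1
    rw [Finset.mem_coe, Finset.mem_filter, Finset.mem_product]
    refine ⟨⟨a2.2, a2.1⟩, ?_⟩
    show (q.2 + q.1) % 2 ^ L = ν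
    rw [Nat.add_comm]
    exact a1.2
  · intro q _ q' _ h
    exact Prod.swap_injective h

theorem Mult.mono {L B B' : ℕ} (h : Mult L B S S') (hB : B ≤ B') : Mult L B' S S' :=
  fun ν => (h ν).trans hB

/-- **Concatenations: the multiplicities multiply.** -/
theorem mult_cat {B : ℕ} (hS : ∀ s ∈ S, s < 2 ^ l) (hS' : ∀ s ∈ S', s < 2 ^ l)
    (h : Mult l B S S') : ∀ n, Mult (l * n) (B ^ n) (cat l S n) (cat l S' n) := by
  intro n
  induction n with
  | zero =>
    intro ν
    rw [cat_zero, cat_zero, pow_zero]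
    refine (Finset.card_filter_le _ _).trans ?_
    simp
  | succ n ih =>
    intro ν
    classical
    set F := (cat l S (n + 1) ×ˢ cat l S' (n + 1)).filter
      (fun q => (q.1 + q.2) % 2 ^ (l * (n + 1)) = ν) with hF
    set G := (cat l S n ×ˢ cat l S' n).filter
      (fun q => (q.1 + q.2) % 2 ^ (l * n) = ν % 2 ^ (l * n)) with hG
    have hpos : 0 < 2 ^ (l * n) := by positivity
    have hpow : 2 ^ (l * (n + 1)) = 2 ^ (l * n) * 2 ^ l := by
      rw [← pow_add]
      congr 1
    -- the map to the first blocks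
    have hmap : ∀ q ∈ F, (q.1 % 2 ^ (l * n), q.2 % 2 ^ (l * n)) ∈ G := by
      intro q hq
      obtain ⟨h1, h2⟩ := Finset.mem_filter.mp hq
      obtain ⟨h3, h4⟩ := Finset.mem_product.mp h1
      rw [hG, Finset.mem_filter, Finset.mem_product]
      refine ⟨⟨cat_mod hS (Nat.le_succ n) _ h3, cat_mod hS' (Nat.le_succ n) _ h4⟩, ?_⟩
      show (q.1 % 2 ^ (l * n) + q.2 % 2 ^ (l * n)) % 2 ^ (l * n) = ν % 2 ^ (l * n)
      rw [← Nat.add_mod, ← h2]
      exact (Nat.mod_mod_of_dvd _ (pow_dvd_pow 2 (Nat.mul_le_mul_left l (Nat.le_succ n)))).symm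
    have hfib : ∀ p ∈ G, (F.filter (fun q => (q.1 % 2 ^ (l * n), q.2 % 2 ^ (l * n)) = p)).card
        ≤ B := by
      intro p hp
      obtain ⟨hp1, hp2⟩ := Finset.mem_filter.mp hp
      -- target for the top blocks
      set d := (p.1 + p.2) / 2 ^ (l * n) with hd
      set T := ((2 ^ l * (d + 1) + ν / 2 ^ (l * n)) - d) % 2 ^ l with hT
      refine le_trans ?_ (h T)
      apply Finset.card_le_card_of_injOn (fun q => (q.1 / 2 ^ (l * n), q.2 / 2 ^ (l * n)))
      · intro q hq
        obtain ⟨hq1, hq2⟩ := Finset.mem_filter.mp (Finset.mem_coe.mp hq)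
        obtain ⟨h1, h2⟩ := Finset.mem_filter.mp hq1
        obtain ⟨h3, h4⟩ := Finset.mem_product.mp h1
        obtain ⟨x, hx, s, hs, hxs⟩ := mem_cat_succ.mp h3
        obtain ⟨y, hy, r, hr, hyr⟩ := mem_cat_succ.mp h4
        have hx' := cat_lt hS n x hx
        have hy' := cat_lt hS' n y hy
        have e1 : q.1 / 2 ^ (l * n) = s := by
          rw [← hxs, Nat.add_mul_div_left _ _ hpos, Nat.div_eq_of_lt hx', zero_add]
        have e2 : q.2 / 2 ^ (l * n) = r := by
          rw [← hyr, Nat.add_mul_div_left _ _ hpos, Nat.div_eq_of_lt hy', zero_add]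
        have e3 : p.1 = x := by
          rw [← hq2]
          show q.1 % 2 ^ (l * n) = x
          rw [← hxs, Nat.add_mul_mod_self_left, Nat.mod_eq_of_lt hx']
        have e4 : p.2 = y := by
          rw [← hq2]
          show q.2 % 2 ^ (l * n) = y
          rw [← hyr, Nat.add_mul_mod_self_left, Nat.mod_eq_of_lt hy']
        show (q.1 / 2 ^ (l * n), q.2 / 2 ^ (l * n)) ∈ _
        rw [Finset.mem_coe, Finset.mem_filter, Finset.mem_product]
        refine ⟨⟨?_, ?_⟩, ?_⟩
        · show q.1 / 2 ^ (l * n) ∈ S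
          rw [e1]
          exact hs
        · show q.2 / 2 ^ (l * n) ∈ S'
          rw [e2]
          exact hr
        · show (q.1 / 2 ^ (l * n) + q.2 / 2 ^ (l * n)) % 2 ^ l = T
          rw [e1, e2]
          -- `(x + y) + 2 ^ (l n) (s + r)`
          have e5 : q.1 + q.2 = (p.1 + p.2) + 2 ^ (l * n) * (s + r) := by
            rw [← hxs, ← hyr, e3, e4]
            ring
          have e6 : ν / 2 ^ (l * n) = (d + (s + r)) % 2 ^ l := by
            rw [← h2, hpow, Nat.mod_mul_right_div_self, e5, Nat.add_mul_div_left _ _ hpos]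
          rw [hT, e6]
          have hle : d ≤ 2 ^ l * (d + 1) := by
            have : 1 * (d + 1) ≤ 2 ^ l * (d + 1) :=
              Nat.mul_le_mul_right _ (Nat.one_le_two_pow)
            omega
          apply Nat.ModEq.symm
          apply Nat.ModEq.add_left_cancel' d
          have e7 : d + (2 ^ l * (d + 1) + (d + (s + r)) % 2 ^ l - d) =
              2 ^ l * (d + 1) + (d + (s + r)) % 2 ^ l := by omega
          rw [e7]
          have e8 : (d + (s + r)) % 2 ^ l ≡ d + (s + r) [MOD 2 ^ l] := Nat.mod_modEq _ _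
          have e9 : 2 ^ l * (d + 1) ≡ 0 [MOD 2 ^ l] :=
            (Nat.modEq_zero_iff_dvd).mpr (Dvd.intro _ rfl)
          have := e9.add e8
          rw [zero_add] at this
          exact this
      · intro q hq q' hq' he
        have a1 := (Finset.mem_filter.mp (Finset.mem_coe.mp hq)).2
        have a2 := (Finset.mem_filter.mp (Finset.mem_coe.mp hq')).2
        have a3 := congrArg Prod.fst (a1.trans a2.symm)
        have a4 := congrArg Prod.snd (a1.trans a2.symm)
        have b3 := congrArg Prod.fst he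
        have b4 := congrArg Prod.snd he
        simp only at a3 a4 b3 b4
        have c1 := Nat.div_add_mod q.1 (2 ^ (l * n))
        have c2 := Nat.div_add_mod q'.1 (2 ^ (l * n))
        have c3 := Nat.div_add_mod q.2 (2 ^ (l * n))
        have c4 := Nat.div_add_mod q'.2 (2 ^ (l * n))
        refine Prod.ext ?_ ?_
        · rw [← c1, ← c2, a3, b3]
        · rw [← c3, ← c4, a4, b4]
    have hc := Finset.card_le_mul_card_image_of_maps_to hmap B hfib
    calc F.card ≤ B * G.card := hc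
      _ ≤ B * B ^ n := Nat.mul_le_mul_left _ (ih _)
      _ = B ^ (n + 1) := by ring

end Pool.Agent.Helper83.E3
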