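import Pool.Agent.Helper83.E3.NearTop2
import Pool.Agent.Helper16.E3.Two

/-!
# The codes of phase 3 satisfy the hypotheses of the near theorem
-/

variable [Pool.Agent.Helper29.E3.EpFn]

namespace Pool.Agent.E3

open Finset
open Pool.Agent.ETS (Hash Codes Reg)
open Pool.Agent.ETS.RC (Mult RNear)
open Pool.Agent.Helper83.ET (pcode BT fam1_mem fam4_mem fam3_mem fam2_mem prog prog_mod VZ ind
  fifty_le)
open Pool.Agent.Helper5.ETP (QP mem_QP)
open Pool.Agent.Helper83.E3
open Pool.Agent.Helper29.ETK (CC kk lg)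
open Pool.Agent.Helper29.E3 (ep Wd Hd Ld hh ll)
open Pool.Agent.Helper41.ETPP (F3)

variable {c : ℕ} {Sd TK : ℕ → Finset ℕ}

theorem kk_mono {e e' : ℕ} (h : e ≤ e') : kk e ≤ kk e' := by
  unfold kk
  exact Nat.clog_mono_right 2 (by omega)

/-- the blocks of the units, as a set of sets -/
def QWs (c : ℕ) (Sd : ℕ → Finset ℕ) (e : ℕ) : Set (Finset ℕ) := {q | q ∈ Fam2 c Sd e}

/-- the blocks of the mid blocks, as a set of sets -/
def QHs (c : ℕ) (Sd : ℕ → Finset ℕ) (e : ℕ) : Set (Finset ℕ) := {q | q ∈ Fam1 c Sd e}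

theorem QWs_all {e : ℕ} {q : Finset ℕ}
    (h : q ∈ Helper83.ET.famAll (CC c ^ e) (50 * CC c ^ (e + 1))) : q ∈ QWs c Sd e := by
  show q ∈ Fam2 c Sd e
  rw [Fam2_eq]
  exact FamT_all h

theorem QWs_Th {e ν : ℕ} (h : ν < 2 ^ (CC c ^ e)) :
    neg (CC c ^ e) (loc2 c Sd e).2 ν ∈ QWs c Sd e := by
  show _ ∈ Fam2 c Sd e
  rw [Fam2_eq]
  exact FamT_Th h

theorem QWs_C {e ν : ℕ} (h : ν < 2 ^ (CC c ^ e)) :
    neg (CC c ^ e) (C2s c Sd e) ν ∈ QWs c Sd e := by
  show _ ∈ Fam2 c Sd e
  rw [Fam2_eq]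
  exact FamT_D h

theorem QWs_low {e s r : ℕ} (h1 : CC c ^ e / 2 ≤ s) (h2 : s ≤ CC c ^ e) (h : r < 2 ^ (CC c ^ e)) :
    lowc (CC c ^ e) s r ∈ QWs c Sd e := by
  show _ ∈ Fam2 c Sd e
  rw [Fam2_eq]
  exact Finset.mem_union_left _ (Finset.mem_union_right _ (FamB_low h1 h2 h))

theorem FamU_Th {L ν : ℕ} {Th C : Finset ℕ} {F G : Finset (Finset ℕ)} (hG : G = FamB L Th C ∪ F)
    (h : ν < 2 ^ L) : neg L Th ν ∈ G := by
  rw [hG]
  exact Finset.mem_union_left _ (FamB_Th h)

theorem FamU_C {L ν : ℕ} {Th C : Finset ℕ} {F G : Finset (Finset ℕ)} (hG : G = FamB L Th C ∪ F)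
    (h : ν < 2 ^ L) : neg L C ν ∈ G := by
  rw [hG]
  exact Finset.mem_union_left _ (FamB_C h)

theorem QHs_Th {e ν : ℕ} (h : ν < 2 ^ hh c e) : neg (hh c e) (loc1 c Sd e).2 ν ∈ QHs c Sd e :=
  FamU_Th (Fam1_eq c Sd e) h

theorem QHs_C {e ν : ℕ} (h : ν < 2 ^ hh c e) : neg (hh c e) (C1s c Sd e) ν ∈ QHs c Sd e :=
  FamU_C (Fam1_eq c Sd e) h

theorem nearT_mk2 (hc : 20 ≤ c) (hS : SdOK Sd) {e : ℕ} (he : 40 ≤ e) :
    NearT (CC c) e (BT (CC c) e) ((mk2 c Sd TK).T e) ((mk2 c Sd TK).Th e) :=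
  (mk2_loc2 hc hS he).toLocG.nearT

theorem RNear_mk2 (hc : 20 ≤ c) (hS : SdOK Sd) {e1 : ℕ} (he : 40 ≤ e1) :
    RNear (mk2 c Sd TK).toCodes e1 (BT (CC c)) :=
  mkT_RNear (CC_ge2 hc) (CC_even2 hc) (by omega) (fun _ he' => nearT_mk2 (TK := TK) hc hS
    (he.trans he'))

/-- a mid block in its stages -/
theorem stages_block (hc : 20 ≤ c) (hS : SdOK Sd) {e : ℕ} (he : 40 ≤ e) (f : ℕ) :
    Stages (ll c e) (hh c e / ll c e) f (Sd (ll c e)) ((mk2 c Sd TK).T1 e)
      ((mk2 c Sd TK).Th1 e) (QHs c Sd e) 8 (fun s => Reg2.rg (mk2 c Sd TK) (.cell (ll c e) s))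
      (Reg2.rg (mk2 c Sd TK) (.C1 e f)) (Reg2.rg (mk2 c Sd TK) (.T1 e f))
      (Reg2.rg (mk2 c Sd TK) (.mid e f)) := by
  have h2 := ll_even hc he
  have h8 : 8 ≤ ll c e := le_trans (by norm_num) (ll_ge hc he)
  have hH := hh_eq hc (show 20 ≤ e by omega)
  have hn : 1 ≤ n1 c := by
    unfold n1 CC
    exact Nat.one_le_iff_ne_zero.mpr (by positivity)
  have hdiv : hh c e / ll c e = n1 c := by
    rw [hH]
    exact Nat.mul_div_cancel_left _ (by omega)
  have hmul : ll c e * (hh c e / ll c e) = hh c e := by rw [hdiv, hH]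
  have h := mk2_locH (TK := TK) hc hS he
  refine
    { one := by rw [hdiv]; exact hn
      mu := by norm_num
      base := ⟨fun _ => rfl, fun _ => rfl, fun _ => rfl, fun _ _ => rfl⟩
      noBlk := fun _ _ => rfl
      S_lt := hS.lt _ h2 h8
      T_lt := by rw [hmul]; exact h.T_lt
      Th_lt := by rw [hmul]; exact h.Th_lt
      SS := hS.mult _ h2 h8
      ThTh := by rw [hmul]; exact Mult.mono h.ThTh (by norm_num)
      QTh := by
        intro ν hν
        rw [hmul] at hν ⊢
        exact QHs_Th hν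
      QC := by
        intro ν hν
        rw [hmul] at hν ⊢
        exact QHs_C hν
      C_bot := rfl
      C_top := by rw [hmul]; rfl
      C_V := rfl
      C_c := fun _ => rfl
      C_blk := fun _ => rfl
      T_bot := rfl
      T_top := by rw [hmul]; rfl
      T_shf := ⟨fun z => z, 0, by rw [hmul]; exact Shf_blk _ _ _, fun _ _ => rfl⟩
      Th_bot := rfl
      Th_top := by rw [hmul]; rfl
      Th_shf := ⟨fun z => z, 0, by rw [hmul]; exact Shf_set _ _ _⟩
      Th_blk := fun _ => rfl }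

/-- a unit in its stages -/
theorem stages_unit (hc : 20 ≤ c) (hS : SdOK Sd) {e : ℕ} (he : 40 ≤ e) (hk : 4 * c ≤ kk e + 8)
    (b : ℕ) :
    Stages (hh c e) (CC c ^ e / hh c e) b ((mk2 c Sd TK).Th1 e) ((mk2 c Sd TK).T e)
      ((mk2 c Sd TK).Th e) (QWs c Sd e) 8 (fun s => Reg2.rg (mk2 c Sd TK) (.mid e s))
      (Reg2.rg (mk2 c Sd TK) (.C2 e b))
      (rgOf (mk2 c Sd TK).toCodes (Reg.RT e b (b + (mk2 c Sd TK).W e)))
      (rgOf (mk2 c Sd TK).toCodes (Reg.RTh e b (b + (mk2 c Sd TK).W e))) := by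
  have hdvd : hh c e ∣ CC c ^ e := Helper29.E3.hh_dvd_pow (by omega) (by omega)
  have hmul : hh c e * (CC c ^ e / hh c e) = CC c ^ e := Nat.mul_div_cancel' hdvd
  have hle := Helper29.E3.hh_le_pow (c := c) (by omega) (show 8 ≤ e by omega) hk
  have hpos := hh_pos c e
  have h := mk2_locH (TK := TK) hc hS he
  have h2 := mk2_loc2 (TK := TK) hc hS he
  have hY0 : ((mk2 c Sd TK).toCodes.Y 0).card ≤ 1 := (RNear_mk2 (TK := TK) hc hS le_rfl).Y0
  refine
    { one := by
        rw [Nat.le_div_iff_mul_le hpos]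
        omega
      mu := by norm_num
      base := ⟨fun _ => rfl, fun _ => rfl, fun _ => rfl, fun _ _ => rfl⟩
      noBlk := fun _ _ => rfl
      S_lt := h.Th_lt
      T_lt := by rw [hmul]; exact h2.T_lt
      Th_lt := by rw [hmul]; exact h2.Th_lt
      SS := Mult.mono h.ThTh (by norm_num)
      ThTh := by rw [hmul]; exact Mult.mono h2.mThTh (by norm_num)
      QTh := by
        intro ν hν
        rw [hmul] at hν ⊢
        exact QWs_Th hν
      QC := by
        intro ν hν
        rw [hmul] at hν ⊢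
        exact QWs_C hν
      C_bot := rfl
      C_top := by rw [hmul]; rfl
      C_V := rfl
      C_c := fun _ => rfl
      C_blk := fun _ => rfl
      T_bot := rfl
      T_top := by rw [hmul]; rfl
      T_shf := by
        obtain ⟨κ, hκ⟩ := exists_Shf_RT (C := (mk2 c Sd TK).toCodes) hY0 e b
        rw [hmul]
        exact ⟨_, κ, hκ, fun _ _ => rfl⟩
      Th_bot := rfl
      Th_top := by rw [hmul]; rfl
      Th_shf := by
        obtain ⟨κ, hκ⟩ := exists_Shf_RTh (C := (mk2 c Sd TK).toCodes) hY0 e b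
        rw [hmul]
        exact ⟨_, κ, hκ⟩
      Th_blk := fun _ => rfl }

/-- The conditions of the `PT` regions that occur. -/
theorem PTok_mk2 (hc : 20 ≤ c) (hS : SdOK Sd) {g b : ℕ} (he : 40 ≤ ep c b) (hWb : Wd c b ∣ b)
    (hWg : Wd c b ∣ g) (h : g = 0 ∨ ep c g = ep c b) :
    Helper41.ETPP.PTok (mk2 c Sd TK).toCodes (pcode (CC c) (pidx c g)) (BT (CC c) (ep c b))
      (ep c b) (b - g) :=
  mkT_PTok' hc (by omega) hWb hWg h (nearT_mk2 (TK := TK) hc hS he)

/-- **The codes of phase 3 satisfy the hypotheses of the near theorem.** -/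
theorem mk_NearCodes2 (hc : 20 ≤ c) (hS : SdOK Sd) {e1 : ℕ} (he1 : 40 ≤ e1)
    (hk : 4 * c ≤ kk e1 + 8) :
    NearCodes2 c e1 (mk2 c Sd TK) 132 153738 (QWs c Sd) (QHs c Sd) where
  W := fun _ => rfl
  H := fun _ _ => rfl
  L := fun _ _ => rfl
  mu := by norm_num
  oneA := by norm_num
  X0 := by
    intro p
    show ((mkT (CC c) _ _ TK).X p 0).card ≤ 1
    rw [mkT_X_zero]
    simp
  Y0 := (RNear_mk2 (TK := TK) hc hS he1).Y0
  res := by
    intro p l k x hx hlk
    have h1 := (pcode (CC c) p).P_mod hlk ((pcode (CC c) p).X_mod hx)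
    show (pcode (CC c) p).P k x ≡ (pcode (CC c) p).P l x [MOD 2 ^ l]
    rw [Nat.ModEq, h1, Nat.mod_eq_of_lt ((pcode (CC c) p).P_lt l x)]
  PP := by
    intro p f b hfb
    exact (Helper41.ETPP.PB_PP (c := pcode (CC c) p) (fun _ => rfl) (fun _ _ => rfl)
      hfb.le).mono (by norm_num)
  RR := fun b v h => ((RNear_mk2 (TK := TK) hc hS he1).RR b v h).mono (by norm_num)
  ThTh := (RNear_mk2 (TK := TK) hc hS he1).ThTh
  cell := by
    intro e s he
    have h2 := ll_even hc (he1.trans he)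
    have h8 : 8 ≤ ll c e := le_trans (by norm_num) (ll_ge hc (he1.trans he))
    exact (PBr_shf (Shf_cell _ _ _) (Shf_cell _ _ _) (hS.mult _ h2 h8)).mono (by norm_num)
  mid := by
    intro e s he
    exact (PBr_shf (Shf_set _ _ _) (Shf_set _ _ _)
      (mk2_locH (TK := TK) hc hS (he1.trans he)).ThTh).mono (by norm_num)
  C1 := by
    intro e s he
    have h := stages_block (TK := TK) hc hS (he1.trans he) s
    exact (PBr_shf h.C_shf h.C_shf h.CC).mono (Nat.pow_le_pow_left (by norm_num) _)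
  C2 := by
    intro e s he
    have h := stages_unit (TK := TK) hc hS (he1.trans he)
      (hk.trans (Nat.add_le_add_right (kk_mono he) 8)) s
    exact (PBr_shf h.C_shf h.C_shf h.CC).mono (Nat.pow_le_pow_left (by norm_num) _)
  one := by
    intro e he
    have hb := (RNear_mk2 (TK := TK) hc hS he1).base e he
    have h := mk2_loc2 (TK := TK) hc hS (he1.trans he)
    refine oneSided_of hb ?_ ?_ ?_ ?_
    · intro t ht
      refine ⟨lowc (CC c ^ e) (CC c ^ e / 2) (t % 2 ^ (CC c ^ e / 2)),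
        QWs_low le_rfl (Nat.div_le_self _ _) ?_, mem_lowc.mpr ⟨h.T_lt t ht, rfl⟩⟩
      exact lt_of_lt_of_le (Nat.mod_lt _ (by positivity))
        (Nat.pow_le_pow_right (by norm_num) (Nat.div_le_self _ _))
    · intro j k hj hk'
      exact QWs_all (fam1_mem hj hk' _)
    · intro ν hν
      exact QWs_all (fam4_mem hν _)
    · intro ν hν
      exact QWs_Th hν
  PTP := by
    intro g b he hgb hWb hWg h
    have he40 := he1.trans he
    have hok := PTok_mk2 (TK := TK) hc hS (he1.trans he) hWb hWg h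
    have hloc := mk2_loc2 (TK := TK) hc hS (he1.trans he)
    have h0 : OneSidedP (mk2 c Sd TK).toCodes (ep c b) 4 (QWs c Sd (ep c b)) (pidx c g) g b := by
      refine oneSidedP_of (c := pcode (CC c) (pidx c g)) (fun _ => rfl) (fun _ _ => rfl) hgb hok
        ?_ ?_
      · intro ν s _
        refine ⟨prog (CC c ^ ep c b) (ν % 2 ^ (CC c ^ ep c b)) (s % 2 ^ (CC c ^ ep c b)),
          QWs_all (fam3_mem (Nat.mod_lt _ (by positivity)) (Nat.mod_lt _ (by positivity)) _), ?_⟩
        rintro t - ⟨j, hj, hjt⟩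
        rw [← prog_mod]
        exact Finset.mem_image.mpr ⟨j, Finset.mem_range.mpr hj, hjt⟩
      · intro hgb0 ν
        have hgb' : g = b := by omega
        subst hgb'
        have hb : g ≠ 0 := by
          intro hb
          rw [hb] at he40
          unfold ep lg at he40
          rw [Nat.log_zero_right, Pool.Agent.Helper29.E3.epf_zero] at he40
          omega
        have hp : pidx c g = ep c g + 1 := by
          unfold pidx
          rw [if_neg hb]
        have hC256 : 256 ≤ CC c := le_trans (by norm_num) (CC_ge2 hc)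
        have hl : CC c ^ ep c g ≤ 50 * CC c ^ (ep c g + 1) := by
          calc CC c ^ ep c g ≤ CC c ^ (ep c g + 1) :=
                Nat.pow_le_pow_right (by omega) (by omega)
            _ ≤ 50 * CC c ^ (ep c g + 1) := by omega
        refine ⟨QP VZ ind (CC c ^ ep c g) (CC c ^ ep c g) 0 ν,
          QWs_all (fam2_mem ν (by omega) hl), ?_⟩
        rintro t ht ⟨x, hx, hxt⟩
        have hx' : x ∈ (pcode (CC c) (ep c g + 1)).X (CC c ^ ep c g) := by
          rw [← hp]
          exact hx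
        apply QP_subT (T := fun e => (loc2 c Sd e).1) (Th := fun e => (loc2 c Sd e).2) (TK := TK)
          hC256 (hl.trans (fifty_le (CC_ge2 hc) (ep c g)))
        rw [mem_QP]
        refine ⟨hloc.T_lt t ht, x, hx', ?_⟩
        show (pcode (CC c) (ep c g + 1)).P (CC c ^ ep c g) x + 2 ^ 0 * t ≡ ν
          [MOD 2 ^ (CC c ^ ep c g)]
        have hxt' : ((pcode (CC c) (ep c g + 1)).P (CC c ^ ep c g) x + t) %
            2 ^ (CC c ^ ep c g) = ν := by
          rw [← hp]
          exact hxt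
        rw [pow_zero, one_mul, Nat.ModEq]
        have h3 : ν < 2 ^ (CC c ^ ep c g) := by
          rw [← hxt']
          exact Nat.mod_lt _ (by positivity)
        rw [Nat.mod_eq_of_lt h3]
        exact hxt'
    intro T' hT' m hm1 hm
    exact (h0 T' hT' m hm1 hm).mono (Nat.mul_le_mul_right _ (by norm_num))
  RTRT := fun e b v he hv hd => (PBw_RTRT ((RNear_mk2 (TK := TK) hc hS he1).base e he) hv
    hd).mono (by norm_num)
  PTPT := fun g b _ hgb _ _ _ => (PBw_PTPT (c := pcode (CC c) (pidx c g)) (fun _ => rfl)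
    (fun _ _ => rfl) hgb).mono (by norm_num)
  unit := by
    intro b j j' he hWb hj hj' hadj
    have h := stages_unit (TK := TK) hc hS (he1.trans he)
      (hk.trans (Nat.add_le_add_right (kk_mono he) 8)) b
    have hdvd : hh c (ep c b) ∣ CC c ^ ep c b := Helper29.E3.hh_dvd_pow (by omega) (by
      have := kk_mono he
      omega)
    have hmul : hh c (ep c b) * (CC c ^ ep c b / hh c (ep c b)) = CC c ^ ep c b :=
      Nat.mul_div_cancel' hdvd
    have h1 := h.near hj hj' hadj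
    rw [hmul] at h1
    rw [LF_unit, unitRegs_eq _ _ _ _ rfl, unitRegs_eq _ _ _ _ rfl]
    exact h1.mono (Nat.pow_le_pow_left (by norm_num) _)
  block := by
    intro f j j' he hHf hj hj' hadj
    have he40 := he1.trans he
    have h := stages_block (TK := TK) hc hS he40 f
    have hH := hh_eq hc (show 20 ≤ ep c f by omega)
    have hl := ll_ge hc he40
    have hmul : ll c (ep c f) * (hh c (ep c f) / ll c (ep c f)) = hh c (ep c f) := by
      rw [hH, Nat.mul_div_cancel_left _ (by omega)]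
    have h1 := h.near hj hj' hadj
    rw [hmul] at h1
    rw [LF_block, blockRegs_eq, blockRegs_eq]
    exact h1.mono (Nat.pow_le_pow_left (by norm_num) _)

end Pool.Agent.E3
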