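import Pool.Agent.Helper83.ET.ThetaSet

/-!
# The sets `Theta` with the bound for prescribed low digits
-/

namespace Pool.Agent.Helper83.E3

open Finset Pool.Agent.Helper83.ET

theorem VZ_low {W : ℕ} (hW : 2 ∣ W) (k c : ℕ) :
    ((VZ W).filter (fun z => z % 2 ^ (k + 2) = c)).card ≤ 2 ^ (W / 2 - k) := by
  have hlt : ∀ z ∈ VZ W, z < 2 ^ (W / 2 + 2) := by
    intro z hz
    have := VZ_lt hz
    have h2 : (W + 1) / 2 = W / 2 := by
      obtain ⟨w, hw⟩ := hW
      omega
    rwa [h2] at this
  -- `z ↦ z / 2 ^ (k + 2)` is injective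
  have hM : 0 < 2 ^ (k + 2) := by positivity
  have h1 : ((VZ W).filter (fun z => z % 2 ^ (k + 2) = c)).card ≤
      (Finset.range (2 ^ (W / 2 - k))).card := by
    apply Finset.card_le_card_of_injOn (fun z => z / 2 ^ (k + 2))
    · intro z hz
      have hz' := Finset.mem_filter.mp (Finset.mem_coe.mp hz)
      have hzlt := hlt z hz'.1
      rw [Finset.mem_coe, Finset.mem_range]
      show z / 2 ^ (k + 2) < 2 ^ (W / 2 - k)
      rw [Nat.div_lt_iff_lt_mul hM, ← pow_add]
      refine lt_of_lt_of_le hzlt (Nat.pow_le_pow_right (by norm_num) (by omega))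
    · intro z hz z' hz' h
      have a1 := (Finset.mem_filter.mp (Finset.mem_coe.mp hz)).2
      have a2 := (Finset.mem_filter.mp (Finset.mem_coe.mp hz')).2
      have h' : z / 2 ^ (k + 2) = z' / 2 ^ (k + 2) := h
      rw [← Nat.div_add_mod z (2 ^ (k + 2)), ← Nat.div_add_mod z' (2 ^ (k + 2)), a1, a2, h']
  rwa [Finset.card_range] at h1

/-- **Theta**, with free parameters. -/
theorem exists_Theta_gen' {W U E K w : ℕ} (hW2 : 2 ∣ W) (hw : 3 ≤ w) (hwE : w * (K + 1) + 1 ≤ E)
    (hww : 2 * w ≤ W) (hU : U + K * (9 + 3 * (W / 2 / w) + w) < K * E)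
    (Q : Finset (Finset ℕ)) (hQU : Q.card ≤ 2 ^ U) (hQc : ∀ q ∈ Q, q.card ≤ 2 ^ (W / 2 + 8)) :
    ∃ Th : Finset ℕ, (∀ t ∈ Th, t < 2 ^ W) ∧
      (∀ s, ((Th ×ˢ Th).filter (fun q => (q.1 + q.2) % 2 ^ W = s)).card ≤ 2) ∧
      (∀ q ∈ Q, (Th.filter (fun t => t ∈ q)).card < 2 ^ E) ∧
      (VZ W).card ≤ 4 ^ (W / 2 / w + 1) * Th.card ∧ Th.card ≤ 2 ^ (W / 2) ∧
      (∀ k r, (Th.filter (fun t => t % 2 ^ k = r)).card ≤ 2 ^ (W / 2 - k)) := by
  classical
  set n := W / 2 / w with hn
  have hnw : n * w ≤ W / 2 := Nat.div_mul_le_self _ _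
  have hnw2 : W / 2 < n * w + w := by
    have := Nat.lt_div_mul_add (a := W / 2) (show 0 < w by omega)
    rwa [← hn] at this
  set a := W - n * w with ha
  have haW : a + n * w = W := by omega
  have ha2 : (W + 1) / 2 ≤ a := by omega
  obtain ⟨m, f, hmf⟩ := exists_theta (a := a) (w := w) (n := n) (W := W) (c := W / 2 + 8)
    (U := U) (E := E) (K := K) hw (by omega) haW Q hQU hQc hwE (by
      have h1 : K * (W / 2 + 8 + 1 + 3 * n) ≤ K * (n * w) + K * (9 + 3 * n + w) := by
        rw [← mul_add]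
        exact Nat.mul_le_mul_left _ (by omega)
      have h2 : K * (n * w + E) = K * (n * w) + K * E := by ring
      omega)
  let c : Code := ⟨thetaBeta a w, m, f, thetaBeta_strictMono (by omega) (by omega)⟩
  have hnb : c.nb W ≤ n + 1 := by
    unfold Code.nb
    have hsub : (Finset.range (W + 1)).filter (fun j => 1 ≤ j ∧ c.β j ≤ W) ⊆
        Finset.Icc 1 (n + 1) := by
      intro j hj
      rw [Finset.mem_filter] at hj
      rw [Finset.mem_Icc]
      refine ⟨hj.2.1, ?_⟩
      obtain ⟨i, rfl⟩ : ∃ i, j = i + 1 := ⟨j - 1, by omega⟩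
      have h1 : thetaBeta a w (i + 1) ≤ W := hj.2.2
      rw [thetaBeta_succ] at h1
      have h2 : i * w ≤ n * w := by omega
      have h3 := Nat.le_of_mul_le_mul_right h2 (show 0 < w by omega)
      omega
    have := Finset.card_le_card hsub
    rwa [Nat.card_Icc, Nat.add_sub_cancel] at this
  have hinj : Set.InjOn (c.P W) (c.X W : Set ℕ) := by
    intro x hx y hy h
    exact c.eq_of_P (k := W) (l := W) (c.X_subset W hx) (c.X_subset W hy) (by omega)
      (le_refl _) (le_refl _) (by rw [h])
  have hcard : ((c.X W).image (c.P W)).card = (c.X W).card := Finset.card_image_of_injOn hinj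
  refine ⟨(c.X W).image (c.P W), ?_, ?_, ?_, ?_, ?_, ?_⟩
  · intro t ht
    obtain ⟨x, -, rfl⟩ := Finset.mem_image.mp ht
    exact c.P_lt W x
  · intro s
    refine le_trans ?_ (card_pairs_P c (l := W) (k := W) (s := s) (le_refl _))
    -- the pairs of contents come from pairs of variables
    have hsub : (((c.X W).image (c.P W) ×ˢ (c.X W).image (c.P W)).filter
        (fun q => (q.1 + q.2) % 2 ^ W = s)) ⊆
        (((c.X W ×ˢ c.X W).filter (fun q => (c.P W q.1 + c.P W q.2) % 2 ^ W = s)).image
          (fun q => (c.P W q.1, c.P W q.2))) := by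
      intro q hq
      have h1 := Finset.mem_filter.mp hq
      have h2 := Finset.mem_product.mp h1.1
      obtain ⟨x, hx, hx'⟩ := Finset.mem_image.mp h2.1
      obtain ⟨y, hy, hy'⟩ := Finset.mem_image.mp h2.2
      rw [Finset.mem_image]
      refine ⟨(x, y), ?_, ?_⟩
      · rw [Finset.mem_filter, Finset.mem_product]
        refine ⟨⟨hx, hy⟩, ?_⟩
        show (c.P W x + c.P W y) % 2 ^ W = s
        rw [hx', hy']
        exact h1.2
      · show (c.P W x, c.P W y) = q
        rw [hx', hy']
    exact (Finset.card_le_card hsub).trans Finset.card_image_le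
  · intro q hq
    refine lt_of_le_of_lt ?_ (hmf q hq)
    have hsub : ((c.X W).image (c.P W)).filter (fun t => t ∈ q) ⊆
        ((Finset.range (2 ^ (a + 2))).filter (fun x => x % 4 = 1 ∧
          ET.P (thetaBeta a w) m f W x ∈ q)).image (c.P W) := by
      intro t ht
      have h1 := Finset.mem_filter.mp ht
      obtain ⟨x, hx, rfl⟩ := Finset.mem_image.mp h1.1
      rw [Finset.mem_image]
      refine ⟨x, ?_, rfl⟩
      rw [Finset.mem_filter, Finset.mem_range]
      refine ⟨lt_of_lt_of_le (c.X_lt hx) (Nat.pow_le_pow_right (by norm_num) (by omega)),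
        c.X_mod hx, h1.2⟩
    exact (Finset.card_le_card hsub).trans Finset.card_image_le
  · rw [hcard]
    refine (c.card_X W).trans (Nat.mul_le_mul_right _ ?_)
    exact Nat.pow_le_pow_right (by norm_num) hnb
  · rw [hcard]
    have h1 := (Finset.card_le_card (c.X_subset W)).trans (VZ_card_le W)
    have h2 : (W + 1) / 2 = W / 2 := by
      obtain ⟨w, hw⟩ := hW2
      omega
    rwa [h2] at h1
  · intro k r
    rcases Nat.lt_or_ge W k with hk | hk
    · -- more digits than there are
      have hpow : 2 ^ (W / 2 - k) = 1 := by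
        have : W / 2 - k = 0 := by omega
        rw [this, pow_zero]
      rw [hpow, Finset.card_le_one]
      intro t ht t' ht'
      have a1 := Finset.mem_filter.mp ht
      have a2 := Finset.mem_filter.mp ht'
      have hlt : ∀ t ∈ (c.X W).image (c.P W), t < 2 ^ k := by
        intro t ht
        obtain ⟨x, -, rfl⟩ := Finset.mem_image.mp ht
        exact lt_of_lt_of_le (c.P_lt W x) (Nat.pow_le_pow_right (by norm_num) hk.le)
      have e1 := Nat.mod_eq_of_lt (hlt t a1.1)
      have e2 := Nat.mod_eq_of_lt (hlt t' a2.1)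
      rw [← e1, ← e2, a1.2, a2.2]
    · -- the variables agree modulo `2 ^ (k + 2)`
      set S := (c.X W).filter (fun x => c.P W x % 2 ^ k = r) with hS
      have h1 : (((c.X W).image (c.P W)).filter (fun t => t % 2 ^ k = r)).card ≤ S.card := by
        have hsub : ((c.X W).image (c.P W)).filter (fun t => t % 2 ^ k = r) ⊆
            S.image (c.P W) := by
          intro t ht
          obtain ⟨h2, h3⟩ := Finset.mem_filter.mp ht
          obtain ⟨x, hx, rfl⟩ := Finset.mem_image.mp h2
          exact Finset.mem_image.mpr ⟨x, Finset.mem_filter.mpr ⟨hx, h3⟩, rfl⟩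
        exact (Finset.card_le_card hsub).trans Finset.card_image_le
      refine h1.trans ?_
      rcases S.eq_empty_or_nonempty with h0 | ⟨x0, hx0⟩
      · rw [h0]
        simp
      · have hx0' := Finset.mem_filter.mp hx0
        refine le_trans (Finset.card_le_card ?_) (VZ_low hW2 k (x0 % 2 ^ (k + 2)))
        intro x hx
        have hx' := Finset.mem_filter.mp hx
        rw [Finset.mem_filter]
        refine ⟨c.X_subset W hx'.1, ?_⟩
        exact c.modEq_of_P (l := W) (l' := W) (k := k) hk hk (c.X_mod hx'.1) (c.X_mod hx0'.1) (by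
          rw [Nat.ModEq, hx'.2, hx0'.2])

end Pool.Agent.Helper83.E3
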